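import Pool.Agent.helper82.VD.SpecJ

/-! Row vdg:GJF (MP_07c750). -/

set_option autoImplicit false

namespace Pool.Agent.VDG

open Pool.Agent.VD Pool.Agent.VDE MeasureTheory Filter Set Topology
open scoped ENNReal

/-- the discs are continuous -/
lemma GJF_cont {m : ℕ} {Γ : Type} [Group Γ] [MulAction Γ (V (m + 1))] {K F0 : Set (V (m + 1))}
    {G : V (m + 1) → V (m + 1) →L[ℝ] V (m + 1)} {Φ : ℝ → P (m + 1) → P (m + 1)}
    {dd : P (m + 1) → P (m + 1) → ℝ} {κ : P (m + 1) → EE m → P (m + 1)} {r1 c C e0 e1 : ℝ}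
    (hG : GeU Γ K F0 G Φ r1 C dd) (hS : SEC c C e0 e1 {p | nrm G p = 1} dd Φ κ) (z : P (m + 1))
    (hz : nrm G z = 1) :
    ContinuousOn (fun w : EuclideanSpace ℝ (Fin m) => κ z (0, w)) (Metric.closedBall 0 e1) := by
  intro w0 hw0
  have hw0' : ‖w0‖ ≤ e1 := mem_closedBall_zero_iff.1 hw0
  have hn : ∀ w : EuclideanSpace ℝ (Fin m), ‖((0, w) : EE m)‖ = ‖w‖ := by
    intro w
    rw [Prod.norm_def, norm_zero]
    exact max_eq_right (norm_nonneg _)
  obtain ⟨γ, hγ⟩ := hG.fld.fdk.cover (κ z (0, w0)).1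
  have hC : 1 ≤ C := hG.hC
  have hmem : ∀ w : EuclideanSpace ℝ (Fin m), ‖w‖ ≤ e1 → nrm G (lft γ (κ z (0, w))) = 1 := by
    intro w hw
    rw [hG.fld.ln]
    exact hS.mem z hz (0, w) (by rw [hn]; exact hw)
  have hbd : ∀ w : EuclideanSpace ℝ (Fin m), ‖w‖ ≤ e1 → C * ‖w0 - w‖ ≤ 1 / 2 →
      ‖lft γ (κ z (0, w0)) - lft γ (κ z (0, w))‖ ≤ C * (C * ‖w0 - w‖) := by
    intro w hw h2
    have h3 : dd (lft γ (κ z (0, w0))) (lft γ (κ z (0, w))) ≤ C * ‖w0 - w‖ := by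
      rw [hG.fld.dis.inv]
      have h4 := hS.cmp z hz (0, w0) (0, w) (by rw [hn]; exact hw0') (by rw [hn]; exact hw)
      have h5 : ((0, w0) : EE m) - (0, w) = (0, w0 - w) := by
        rw [Prod.mk_sub_mk, sub_zero]
      rw [h5, hn] at h4
      exact h4
    have h6 := hG.fld.dis.lo (lft γ (κ z (0, w0))) (lft γ (κ z (0, w))) hγ
      (by rw [hmem w0 hw0']; norm_num) (by rw [hmem w hw]; norm_num) (h3.trans h2)
    exact h6.trans (by gcongr)
  have ht : Tendsto (fun w : EuclideanSpace ℝ (Fin m) => lft γ (κ z (0, w)))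
      (𝓝[Metric.closedBall 0 e1] w0) (𝓝 (lft γ (κ z (0, w0)))) := by
    rw [tendsto_iff_norm_sub_tendsto_zero]
    have h1 : Tendsto (fun w : EuclideanSpace ℝ (Fin m) => C * (C * ‖w0 - w‖))
        (𝓝[Metric.closedBall 0 e1] w0) (𝓝 0) := by
      have h2 : Continuous fun w : EuclideanSpace ℝ (Fin m) => C * (C * ‖w0 - w‖) := by fun_prop
      have h3 := h2.tendsto w0
      rw [sub_self, norm_zero, mul_zero, mul_zero] at h3
      exact h3.mono_left nhdsWithin_le_nhds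
    have h4 : ∀ᶠ w in 𝓝[Metric.closedBall 0 e1] w0, C * ‖w0 - w‖ < 1 / 2 := by
      have h2 : Continuous fun w : EuclideanSpace ℝ (Fin m) => C * ‖w0 - w‖ := by fun_prop
      have h3 := h2.tendsto w0
      rw [sub_self, norm_zero, mul_zero] at h3
      exact (h3.mono_left nhdsWithin_le_nhds).eventually (gt_mem_nhds (by norm_num))
    refine squeeze_zero' (Eventually.of_forall fun _ => norm_nonneg _) ?_ h1
    filter_upwards [h4, self_mem_nhdsWithin] with w h5 h6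
    rw [norm_sub_rev]
    exact hbd w (mem_closedBall_zero_iff.1 h6) h5.le
  have hinv : ∀ p : P (m + 1), lft γ⁻¹ (lft γ p) = p := by
    intro p
    rw [← hG.fld.mul, inv_mul_cancel, hG.fld.one]
  have h7 := ((hG.fld.lc γ⁻¹).tendsto (lft γ (κ z (0, w0)))).comp ht
  rw [hinv] at h7
  refine h7.congr fun w => ?_
  exact hinv _

lemma GJF_BB {S : Type} (d : S → S → ℝ) (f : ℝ → S → S) (T : ℝ) (x : S) {ε ε' : ℝ} (h : ε ≤ ε') :
    BB d f T x ε ⊆ BB d f T x ε' := fun _ hy s hs => (hy s hs).trans h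

lemma GJF_of {a b : ℝ} (h : a ≤ b) {x y : ENNReal} (hx : x ≤ ENNReal.ofReal a * y) :
    x ≤ ENNReal.ofReal b * y := hx.trans (mul_le_mul_left (ENNReal.ofReal_le_ofReal h) y)

theorem GJF_proof (hHBC : HBC_stmt) (hSCC : SCC_stmt) (hGVV : GVV_stmt) (hGD1 : GD1_stmt)
    (hGD2 : GD2_stmt) (hGD3 : GD3_stmt) : GJF_stmt := by
  intro m r1 c C e0 e1 hr1 hc hC he0 he1
  obtain ⟨C', e', hC', he', he'0, he'1, hmain⟩ := hSCC m r1 c C e0 e1 hr1 hC he0 he1
  obtain ⟨C1, ν, ρ0, hρ, hHB2, hRCN⟩ := hHBC m c C e0 hc hC he0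
  obtain ⟨εV, hεV, hV⟩ := hGVV m _ C' e' C1 ν ρ0 hC' he' hHB2
  obtain ⟨εA, eA, hεA, heA, hA⟩ := hGD1 m _ C' e' C1 ν ρ0 hC' he' hHB2
  obtain ⟨εB, eB, hεB, heB, hB⟩ := hGD2 m _ C' e' C1 ν ρ0 hC' he' hHB2
  obtain ⟨εD, eD, CD, hεD, heD, hCD, hD⟩ := hGD3 C' e' C1 ν ρ0 hC' he'
  -- the radii
  obtain ⟨ε0, hε0, h0V, h0A, h0B, h0D⟩ : ∃ ε0 : ℝ, 0 < ε0 ∧ 16 * ε0 ≤ εV ∧ 16 * ε0 ≤ εA ∧
      16 * ε0 ≤ εB ∧ 16 * ε0 ≤ εD := by
    refine ⟨min (min εV εA) (min εB εD) / 16, ?_, ?_, ?_, ?_, ?_⟩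
    · have : 0 < min (min εV εA) (min εB εD) := lt_min (lt_min hεV hεA) (lt_min hεB hεD)
      linarith
    · have := (min_le_left (min εV εA) (min εB εD)).trans (min_le_left _ _)
      linarith
    · have := (min_le_left (min εV εA) (min εB εD)).trans (min_le_right _ _)
      linarith
    · have := (min_le_right (min εV εA) (min εB εD)).trans (min_le_left _ _)
      linarith
    · have := (min_le_right (min εV εA) (min εB εD)).trans (min_le_right _ _)
      linarith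
  obtain ⟨e3, he3, h3A, h3B, h3D, h31⟩ : ∃ e3 : ℝ, 0 < e3 ∧ e3 ≤ eA ∧ e3 ≤ eB ∧ e3 ≤ eD ∧ e3 ≤ e1 := by
    refine ⟨min (min eA eB) (min eD e1), ?_, ?_, ?_, ?_, ?_⟩
    · exact lt_min (lt_min heA heB) (lt_min heD he1)
    · exact (min_le_left _ _).trans (min_le_left _ _)
    · exact (min_le_left _ _).trans (min_le_right _ _)
    · exact (min_le_right _ _).trans (min_le_left _ _)
    · exact (min_le_right _ _).trans (min_le_right _ _)
  have k1 := fun (ε : ℝ) (h : 0 < ε ∧ ε ≤ ε0) => hV (ε / 16) (16 * ε) (by linarith [h.1]) (by linarith [h.1, h.2])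
    (by linarith [h.1]) (by linarith [h.2])
  have k2 := fun (ε : ℝ) (h : 0 < ε ∧ ε ≤ ε0) => hA e3 (16 * ε) ε he3 h3A (by linarith [h.1]) (by linarith [h.2])
    h.1 (by linarith [h.1, h.2])
  have k3 := fun (ε : ℝ) (h : 0 < ε ∧ ε ≤ ε0) => hB e3 (ε / 16) (16 * ε) he3 h3B (by linarith [h.1])
    (by linarith [h.1, h.2]) (by linarith [h.1]) (by linarith [h.2])
  choose! CV hCV using k1
  choose! CA hCA using k2
  choose! CB hCB using k3
  refine ⟨ε0, e3, ν, fun ε => max (max 1 (CV ε)) (max (CA ε) (max (CB ε) CD)), hε0, he3, h31, hHB2.hν,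
    fun ε => (le_max_left _ _).trans (le_max_left _ _), ?_⟩
  intro Γ _ _ K F0 G Φ dd κ hG hS
  obtain ⟨f, κ', F, τ, hf, hκ, hSct2⟩ := hmain Γ K F0 G Φ dd κ hG hS
  refine ⟨f, κ', hf, hκ, ?_⟩
  intro ε hε hεε
  have hle : 0 < ε ∧ ε ≤ ε0 := ⟨hε, hεε⟩
  obtain ⟨-, hVV⟩ := hCV ε hle
  obtain ⟨-, hAA⟩ := hCA ε hle
  obtain ⟨-, hBB⟩ := hCB ε hle
  have hSct := hSct2.sct
  have gV : CV ε ≤ max (max 1 (CV ε)) (max (CA ε) (max (CB ε) CD)) := (le_max_right _ _).trans (le_max_left _ _)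
  have gA : CA ε ≤ max (max 1 (CV ε)) (max (CA ε) (max (CB ε) CD)) := (le_max_left _ _).trans (le_max_right _ _)
  have gB : CB ε ≤ max (max 1 (CV ε)) (max (CA ε) (max (CB ε) CD)) :=
    (le_max_left _ _).trans ((le_max_right _ _).trans (le_max_right _ _))
  have gD : CD ≤ max (max 1 (CV ε)) (max (CA ε) (max (CB ε) CD)) :=
    (le_max_right _ _).trans ((le_max_right _ _).trans (le_max_right _ _))
  have g1 : 1 ≤ max (max 1 (CV ε)) (max (CA ε) (max (CB ε) CD)) := (le_max_left _ _).trans (le_max_left _ _)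
  refine ⟨⟨hε, g1, ?_, hSct.d0, hSct.dz, hSct.ds, hSct.dt, hSct.f0, hSct.fa, ?_, ?_, ?_⟩, ?_⟩
  · have h1 : Continuous fun p : Shl G × Shl G => ((p.1.1, p.2.1) : P (m + 1) × P (m + 1)) :=
      (continuous_subtype_val.comp continuous_fst).prodMk (continuous_subtype_val.comp continuous_snd)
    exact hG.fld.dis.cont.comp h1
  · refine continuous_induced_rng.2 ?_
    have h1 : Continuous fun p : ℝ × Shl G => ((p.1, p.2.1) : ℝ × P (m + 1)) :=
      continuous_fst.prodMk (continuous_subtype_val.comp continuous_snd)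
    have h2 := hG.fld.flow.smooth.continuous.comp h1
    refine h2.congr fun p => ?_
    exact (hf p.1 p.2).symm
  · intro x T U hT hU
    exact GJF_of gV (hVV _ _ _ _ _ _ _ hSct2 hRCN x T U hT hU).2.1
  · intro x
    exact (hVV _ _ _ _ _ _ _ hSct2 hRCN x 0 0 le_rfl le_rfl).2.2.2.trans (ENNReal.ofReal_le_ofReal gV)
  · intro z
    refine ⟨⟨?_, ?_, ?_⟩, ?_⟩
    · have h1 := (GJF_cont hG hS z.1 z.2).mono (Metric.closedBall_subset_closedBall h31)
      have h2 : ContinuousOn (fun w : EuclideanSpace ℝ (Fin m) => (κ' z (0, w)).1) (Metric.closedBall 0 e3) := by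
        refine h1.congr fun w hw => ?_
        refine hκ z (0, w) ?_
        rw [Prod.norm_def, norm_zero, max_eq_right (norm_nonneg _)]
        exact (mem_closedBall_zero_iff.1 hw).trans h31
      exact (Topology.IsInducing.subtypeVal.continuousOn_iff).2 h2
    · intro w T hw hT
      exact GJF_of gB (hBB _ _ _ _ _ _ _ hSct2 hRCN z w T hw hT)
    · intro w w' T hw hw' hT h1
      have h2 : 16 * ε ≤ εD := by linarith
      have h3 := hD m _ hHB2 _ _ _ _ _ _ _ hSct2 hRCN z w w' T (by linarith) (by linarith) hT (GJF_BB _ _ _ _ h2 h1)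
      rw [norm_sub_rev]
      exact h3.trans (mul_le_mul_of_nonneg_right gD (Real.exp_pos _).le)
    · intro w T hw hT
      exact GJF_of gA (hAA _ _ _ _ _ _ _ hSct2 hRCN z w T hw hT)

end Pool.Agent.VDG
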