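import Pool.Agent.helper82.VD.SpecH

/-! Row vdg:VLP (MP_07c750). -/

set_option autoImplicit false

namespace Pool.Agent.VDG

open Pool.Agent.VD Pool.Agent.VDE MeasureTheory Filter Set Topology
open scoped ENNReal

lemma VLP_sc (E : Type) [NormedAddCommGroup E] [NormedSpace ℝ E] [FiniteDimensional ℝ E]
    [MeasurableSpace E] [BorelSpace E] (μ ν : Measure E) [μ.IsAddHaarMeasure]
    [ν.IsAddHaarMeasure] : ∃ c : ℝ, 0 < c ∧ ∀ A : Set E, μ A = ENNReal.ofReal c * ν A := by
  refine ⟨(Measure.addHaarScalarFactor μ ν : ℝ), ?_, fun A => ?_⟩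
  · exact_mod_cast Measure.addHaarScalarFactor_pos_of_isAddHaarMeasure μ ν
  · have h := Measure.isAddLeftInvariant_eq_smul μ ν
    have h2 : μ A = (Measure.addHaarScalarFactor μ ν • ν) A := by rw [← h]
    rw [h2, Measure.smul_apply, ENNReal.ofReal_coe_nnreal]
    rfl

theorem VLP_proof : VLP_stmt := by
  intro E E' _ _ _ _ _ _ _ _ _ _ _ _ hd
  obtain ⟨c, hc, h1⟩ := VLP_sc E (Measure.hausdorffMeasure (Module.finrank ℝ E)) volume
  obtain ⟨c', hc', h2⟩ := VLP_sc E' volume (Measure.hausdorffMeasure (Module.finrank ℝ E'))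
  refine ⟨c' * c, mul_pos hc' hc, fun f A L hL hf => ?_⟩
  have hlip : LipschitzOnWith (NNReal.mk L hL) f A := by
    refine LipschitzOnWith.of_dist_le_mul fun x hx y hy => ?_
    rw [dist_eq_norm, dist_eq_norm]
    exact hf x hx y hy
  have h3 := hlip.hausdorffMeasure_image_le (d := (Module.finrank ℝ E : ℝ)) (by positivity)
  rw [h2, ← hd]
  have e1 : ((NNReal.mk L hL : NNReal) : ℝ≥0∞) = ENNReal.ofReal L := by
    rw [ENNReal.ofReal_eq_coe_nnreal hL]
  rw [h1, e1, ENNReal.rpow_natCast, ← ENNReal.ofReal_pow hL] at h3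
  calc ENNReal.ofReal c' * Measure.hausdorffMeasure (Module.finrank ℝ E) (f '' A)
      ≤ ENNReal.ofReal c' * (ENNReal.ofReal (L ^ Module.finrank ℝ E) *
        (ENNReal.ofReal c * volume A)) := by gcongr
    _ = ENNReal.ofReal (c' * c * L ^ Module.finrank ℝ E) * volume A := by
        rw [ENNReal.ofReal_mul (mul_nonneg hc'.le hc.le), ENNReal.ofReal_mul hc'.le]
        ring

end Pool.Agent.VDG
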